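import Mathlib
import Pool.Agent.Lib.MP_424f45_al.OwnA
import Pool.Agent.Lib.MP_424f45_al.OwnC
import Pool.Agent.Lib.MP_424f45_al.OwnE
import Pool.Agent.Lib.MP_424f45_al.OwnF
import Pool.Agent.Lib.MP_424f45_al.OwnG
import Pool.Agent.Lib.MP_424f45_al.OwnH

/-!
The graded ideal zeta functions of the free nilpotent Lie ring of class 4 on 6 generators are not
given by one rational function at almost all primes: `ζ(s) = W(q, q ^ (-s))` fails, for every
rational function `W` and all large primes `p` of a residue class that depends on `W`, for `ℤ_p` or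
for the ring of integers of a quadratic extension of `ℚ_p`.
-/

set_option autoImplicit false

open Polynomial
open scoped TensorProduct

namespace Pool.Agent.Results.MP_424f45_al.NotUniform

/-- The free nilpotent Lie ring `f_{c,d}` of class `c` on `d` generators: the free Lie ring modulo
the `(c + 1)`-st term of its lower central series (Mathlib counts the terms from `0`). -/
def FreeNil (c d : ℕ) : Type :=
  FreeLieAlgebra ℤ (Fin d) ⧸
    LieModule.lowerCentralSeries ℤ (FreeLieAlgebra ℤ (Fin d)) (FreeLieAlgebra ℤ (Fin d)) c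

noncomputable instance (c d : ℕ) : LieRing (FreeNil c d) :=
  LieSubmodule.Quotient.lieQuotientLieRing
    (LieModule.lowerCentralSeries ℤ (FreeLieAlgebra ℤ (Fin d)) (FreeLieAlgebra ℤ (Fin d)) c)

/-- The generators of `f_{c,d}`. -/
noncomputable def gen (c d : ℕ) (j : Fin d) : FreeNil c d :=
  LieSubmodule.Quotient.mk (N := LieModule.lowerCentralSeries ℤ (FreeLieAlgebra ℤ (Fin d))
    (FreeLieAlgebra ℤ (Fin d)) c) (FreeLieAlgebra.of ℤ j)

/-- `x` is an iterated bracket of `i` elements among the `g j`. -/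
inductive Monomial {d : ℕ} {L : Type} [LieRing L] (g : Fin d → L) : ℕ → L → Prop
  | gen (j : Fin d) : Monomial g 1 (g j)
  | bracket (i j : ℕ) (x y : L) (hx : Monomial g i x) (hy : Monomial g j y) :
      Monomial g (i + j) ⁅x, y⁆

/-- `f_{c,d}(O) = f_{c,d} ⊗ O`. -/
def Over (c d : ℕ) (O : Type) [CommRing O] : Type := O ⊗[ℤ] FreeNil c d

noncomputable instance (c d : ℕ) (O : Type) [CommRing O] : LieRing (Over c d O) :=
  LieAlgebra.ExtendScalars.instLieRing ℤ O (FreeNil c d)

noncomputable instance (c d : ℕ) (O : Type) [CommRing O] : LieAlgebra O (Over c d O) :=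
  LieAlgebra.ExtendScalars.instLieAlgebra ℤ O (FreeNil c d)

/-- The element `1 ⊗ x` of `f_{c,d}(O)`. -/
noncomputable def incl (c d : ℕ) (O : Type) [CommRing O] (x : FreeNil c d) : Over c d O :=
  (1 : O) ⊗ₜ[ℤ] x

/-- The homogeneous component `L_i(O)` of degree `i`. -/
noncomputable def component (c d : ℕ) (O : Type) [CommRing O] (i : ℕ) :
    Submodule O (Over c d O) :=
  Submodule.span O {y | ∃ x, Monomial (gen c d) i x ∧ y = incl c d O x}

/-- The graded `O`-ideals of finite index: `I = ⨁ (I ∩ L_i(O))`, `1 ≤ i ≤ c`. -/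
def GradedIdeal (c d : ℕ) (O : Type) [CommRing O] : Type :=
  {I : LieIdeal O (Over c d O) //
    (I : Submodule O (Over c d O)) =
      (⨆ i ∈ Finset.Icc 1 c, ((I : Submodule O (Over c d O)) ⊓ component c d O i)) ∧
    Finite (Over c d O ⧸ (I : Submodule O (Over c d O)))}

/-- The term `|f_{c,d}(O) : I| ^ (-s)`. -/
noncomputable def term (c d : ℕ) (O : Type) [CommRing O] (s : ℂ) (I : GradedIdeal c d O) : ℂ :=
  (Nat.card (Over c d O ⧸ (I.1 : Submodule O (Over c d O))) : ℂ) ^ (-s)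

/-- The graded ideal zeta function of `f_{c,d}(O)`. -/
noncomputable def zeta (c d : ℕ) (O : Type) [CommRing O] (s : ℂ) : ℂ :=
  ∑' I : GradedIdeal c d O, term c d O s I

/-- A finite extension `K` of `ℚ_p` with its ring of integers `O`, the integral closure of `ℤ_p`
in `K` (a local ring). -/
structure PadicExtension (p : ℕ) [Fact p.Prime] where
  K : Type
  O : Type
  [field : Field K]
  [ring : CommRing O]
  [isLocal : IsLocalRing O]
  [algQ : Algebra ℚ_[p] K]
  [algZ : Algebra ℤ_[p] K]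
  [algO : Algebra O K]
  [tower : IsScalarTower ℤ_[p] ℚ_[p] K]
  [finite : FiniteDimensional ℚ_[p] K]
  [integral : IsIntegralClosure O ℤ_[p] K]

attribute [instance] PadicExtension.field PadicExtension.ring PadicExtension.isLocal
  PadicExtension.algQ

/-- `ζ(s) = W(q, q ^ (-s))` for all `s` with large real part, where `W = P / Q` and `q` is the
cardinality of the residue field of `O` (asked only where `Q(q, q ^ (-s)) ≠ 0`). -/
def Identity (c d : ℕ) (O : Type) [CommRing O] [IsLocalRing O] (P Q : Polynomial (Polynomial ℚ)) :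
    Prop :=
  ∃ σ : ℝ, ∀ s : ℂ, σ < s.re → ∀ q y : ℂ, q = Nat.card (IsLocalRing.ResidueField O) →
    y = q ^ (-s) → aevalAeval q y Q ≠ 0 →
      zeta c d O s = aevalAeval q y P / aevalAeval q y Q

/-! ### Proofs -/

open Pool.Agent.Lib.MP_424f45_al

section generic

variable {L : Type} [LieRing L] (g : Fin 6 → L)

/-- right normed brackets -/
def rbr (w : List (Fin 6)) (j : Fin 6) : L :=
  List.foldr (fun k a => ⁅g k, a⁆) (g j) w

/-- span of the right normed brackets of degree `i + 1` -/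
def RN (i : ℕ) : AddSubgroup L :=
  AddSubgroup.closure {x | ∃ (j : Fin 6) (w : List (Fin 6)), w.length = i ∧ x = rbr g w j}

theorem gen_RN (k : Fin 6) (i : ℕ) (x : L) (hx : x ∈ RN g i) : ⁅g k, x⁆ ∈ RN g (i + 1) := by
  induction hx using AddSubgroup.closure_induction with
  | mem x hx =>
    obtain ⟨j, w, hw, rfl⟩ := hx
    exact AddSubgroup.subset_closure ⟨j, k :: w, by simp [hw], rfl⟩
  | zero => rw [lie_zero]; exact (RN g (i + 1)).zero_mem
  | add x y _ _ hx hy => rw [lie_add]; exact (RN g (i + 1)).add_mem hx hy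
  | neg x _ hx => rw [lie_neg]; exact (RN g (i + 1)).neg_mem hx

theorem bracket_RN (i : ℕ) : ∀ (j : ℕ) (x y : L), x ∈ RN g i → y ∈ RN g j →
    ⁅x, y⁆ ∈ RN g (i + j + 1) := by
  induction i with
  | zero =>
    intro j x y hx hy
    rw [Nat.zero_add]
    induction hx using AddSubgroup.closure_induction with
    | mem x hx =>
      obtain ⟨a, w, hw, rfl⟩ := hx
      have : w = [] := List.length_eq_zero_iff.mp hw
      subst this
      exact gen_RN g a j y hy
    | zero => rw [zero_lie]; exact (RN g _).zero_mem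
    | add x x' _ _ hx hx' => rw [add_lie]; exact (RN g _).add_mem hx hx'
    | neg x _ hx => rw [neg_lie]; exact (RN g _).neg_mem hx
  | succ i ih =>
    intro j x y hx hy
    induction hx using AddSubgroup.closure_induction with
    | mem x hx =>
      obtain ⟨a, w, hw, rfl⟩ := hx
      match w, hw with
      | k :: w', hw =>
        have hw' : w'.length = i := by simpa using hw
        have hu : rbr g w' a ∈ RN g i := AddSubgroup.subset_closure ⟨a, w', hw', rfl⟩
        have h1 : ⁅rbr g (k :: w') a, y⁆ =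
            ⁅g k, ⁅rbr g w' a, y⁆⁆ - ⁅rbr g w' a, ⁅g k, y⁆⁆ := by
          show ⁅⁅g k, rbr g w' a⁆, y⁆ = _
          rw [lie_lie]
        rw [h1]
        refine (RN g _).sub_mem ?_ ?_
        · have := gen_RN g k _ _ (ih j _ y hu hy)
          rwa [show i + j + 1 + 1 = i + 1 + j + 1 by omega] at this
        · have := ih (j + 1) _ _ hu (gen_RN g k j y hy)
          rwa [show i + (j + 1) + 1 = i + 1 + j + 1 by omega] at this
    | zero => rw [zero_lie]; exact (RN g _).zero_mem
    | add x x' _ _ hx hx' => rw [add_lie]; exact (RN g _).add_mem hx hx'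
    | neg x _ hx => rw [neg_lie]; exact (RN g _).neg_mem hx

theorem monomial_RN (i : ℕ) (x : L) (h : Monomial g i x) :
    ∃ k, i = k + 1 ∧ x ∈ RN g k := by
  induction h with
  | gen j => exact ⟨0, rfl, AddSubgroup.subset_closure ⟨j, [], rfl, rfl⟩⟩
  | bracket i j x y _ _ hx hy =>
    obtain ⟨k, rfl, hk⟩ := hx
    obtain ⟨l, rfl, hl⟩ := hy
    exact ⟨k + l + 1, by omega, bracket_RN g k l x y hk hl⟩

theorem rbr_monomial (w : List (Fin 6)) (j : Fin 6) :
    Monomial g (w.length + 1) (rbr g w j) := by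
  induction w with
  | nil => exact Monomial.gen j
  | cons k w ih =>
    have := Monomial.bracket 1 (w.length + 1) _ _ (Monomial.gen (g := g) k) ih
    rw [show 1 + (w.length + 1) = (k :: w).length + 1 by simp; omega] at this
    exact this

variable (R O : Type) [CommRing R] [CommRing O] [Algebra R O] [LieAlgebra R L]

theorem one_tmul_rbr (w : List (Fin 6)) (j : Fin 6) :
    (1 : O) ⊗ₜ[R] rbr g w j =
      List.foldr (fun k a => ⁅(1 : O) ⊗ₜ[R] g k, a⁆) ((1 : O) ⊗ₜ[R] g j) w := by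
  induction w with
  | nil => rfl
  | cons k w ih =>
    rw [List.foldr_cons, ← ih]
    show (1 : O) ⊗ₜ[R] ⁅g k, rbr g w j⁆ = ⁅(1 : O) ⊗ₜ[R] g k, (1 : O) ⊗ₜ[R] rbr g w j⁆
    rw [LieAlgebra.ExtendScalars.bracket_tmul, one_mul]

theorem span_generic (i : ℕ) :
    Submodule.span O {y : O ⊗[R] L | ∃ x, Monomial g (i + 1) x ∧ y = 1 ⊗ₜ x} =
    Submodule.span O {y : O ⊗[R] L | ∃ (j : Fin 6) (w : List (Fin 6)), w.length = i ∧
      y = List.foldr (fun (k : Fin 6) (a : O ⊗[R] L) => ⁅(1 : O) ⊗ₜ[R] g k, a⁆)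
        ((1 : O) ⊗ₜ[R] g j) w} := by
  apply le_antisymm
  · refine Submodule.span_le.mpr ?_
    rintro _ ⟨x, hx, rfl⟩
    obtain ⟨k, hk, hxk⟩ := monomial_RN g _ _ hx
    obtain rfl : i = k := by omega
    show (1 : O) ⊗ₜ[R] x ∈ Submodule.span O _
    clear hx hk
    unfold RN at hxk
    induction hxk using AddSubgroup.closure_induction with
    | mem x hx =>
      obtain ⟨j, w, hw, rfl⟩ := hx
      exact Submodule.subset_span ⟨j, w, hw, one_tmul_rbr g R O w j⟩
    | zero => rw [TensorProduct.tmul_zero]; exact Submodule.zero_mem _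
    | add x y _ _ hx hy => rw [TensorProduct.tmul_add]; exact Submodule.add_mem _ hx hy
    | neg x _ hx => rw [TensorProduct.tmul_neg]; exact Submodule.neg_mem _ hx
  · refine Submodule.span_le.mpr ?_
    rintro _ ⟨j, w, hw, rfl⟩
    subst hw
    exact Submodule.subset_span ⟨_, rbr_monomial g w j, (one_tmul_rbr g R O w j).symm⟩

end generic

theorem component_succ (O : Type) [CommRing O] (i : ℕ) : component 4 6 O (i + 1) =
    Submodule.span O {y : Over 4 6 O | ∃ (j : Fin 6) (w : List (Fin 6)), w.length = i ∧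
      y = List.foldr (fun (k : Fin 6) (a : Over 4 6 O) => ⁅incl 4 6 O (gen 4 6 k), a⁆)
        (incl 4 6 O (gen 4 6 j)) w} :=
  span_generic (gen 4 6) ℤ O i

/-- the presentation of `f_{4,6}(O)` -/
theorem pres (O : Type) [CommRing O] : ∃ π : FreeLieAlgebra O (Fin 6) →ₗ⁅O⁆ Over 4 6 O,
      Function.Surjective π ∧
      π.ker = LieModule.lowerCentralSeries O (FreeLieAlgebra O (Fin 6))
        (FreeLieAlgebra O (Fin 6)) 4 ∧
      ∀ j, π (FreeLieAlgebra.of O j) = incl 4 6 O (gen 4 6 j) := by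
  refine exists_pres ℤ O (FreeNil 4 6) (fun x => LieSubmodule.Quotient.mk x) ?_ ?_ ?_ ?_ ?_
  · intro x y
    rfl
  · intro n x
    have h1 := @Int.cast_smul_eq_zsmul ℤ (FreeLieAlgebra ℤ (Fin 6)) _ _
      (FreeLieAlgebra.instLieAlgebra (R := ℤ) (Fin 6)).toModule n x
    have h2 := map_zsmul ((LieModule.lowerCentralSeries ℤ (FreeLieAlgebra ℤ (Fin 6))
      (FreeLieAlgebra ℤ (Fin 6)) 4).toSubmodule.mkQ) n x
    exact (congrArg (fun z => (LieSubmodule.Quotient.mk z : FreeNil 4 6)) h1).trans h2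
  · intro x y
    exact LieSubmodule.Quotient.mk_bracket _ x y
  · intro y
    obtain ⟨x, rfl⟩ := LieSubmodule.Quotient.surjective_mk' _ y
    exact ⟨x, rfl⟩
  · intro x
    have h1 : (LieSubmodule.Quotient.mk x : FreeNil 4 6) = 0 ↔
        x ∈ LieModule.lowerCentralSeries ℤ (FreeLieAlgebra ℤ (Fin 6))
          (FreeLieAlgebra ℤ (Fin 6)) 4 := LieSubmodule.Quotient.mk_eq_zero'
    have h2 := @LieModule.coe_lowerCentralSeries_eq_int ℤ (FreeLieAlgebra ℤ (Fin 6))
      (FreeLieAlgebra ℤ (Fin 6)) _ _ (FreeLieAlgebra.instLieAlgebra (R := ℤ) (Fin 6)) _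
      (FreeLieAlgebra.instLieAlgebra (R := ℤ) (Fin 6)).toModule _ _ 4
    refine h1.trans ?_
    have h3 := Set.ext_iff.mp h2 x
    exact h3.symm

theorem graded_iff (O : Type) [CommRing O] (S : Sys O (Over 4 6 O))
    (hS : ∀ j, S.e j = incl 4 6 O (gen 4 6 j)) (I : LieIdeal O (Over 4 6 O)) :
    (⨆ i ∈ Finset.Icc 1 4, ((I : Submodule O (Over 4 6 O)) ⊓ component 4 6 O i)) =
      (⨆ i : ℕ, ((I : Submodule O (Over 4 6 O)) ⊓
        Submodule.span O {y : Over 4 6 O | ∃ (j : Fin 6) (w : List (Fin 6)), w.length = i ∧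
          y = List.foldr (fun (k : Fin 6) (a : Over 4 6 O) => ⁅incl 4 6 O (gen 4 6 k), a⁆)
            (incl 4 6 O (gen 4 6 j)) w})) := by
  simp only [← component_succ]
  apply le_antisymm
  · refine iSup₂_le fun i hi => ?_
    rw [Finset.mem_Icc] at hi
    obtain ⟨k, rfl⟩ : ∃ k, i = k + 1 := ⟨i - 1, by omega⟩
    exact le_iSup (fun k => (I : Submodule O (Over 4 6 O)) ⊓ component 4 6 O (k + 1)) k
  · refine iSup_le fun i => ?_
    by_cases h : i < 4
    · exact le_iSup₂_of_le (i + 1) (Finset.mem_Icc.mpr ⟨by omega, by omega⟩) le_rfl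
    · have h0 : component 4 6 O (i + 1) = ⊥ := by
        rw [component_succ, eq_bot_iff, Submodule.span_le]
        rintro _ ⟨j, w, hw, rfl⟩
        have h1 := S.nil w j (by omega)
        simp only [br, hS] at h1
        exact h1
      rw [h0, inf_bot_eq]
      exact bot_le

theorem zeta_series (O : Type) [CommRing O] [IsDomain O] [IsDiscreteValuationRing O]
    [Finite (IsLocalRing.ResidueField O)] (S : Sys O (Over 4 6 O))
    (hS : ∀ j, S.e j = incl 4 6 O (gen 4 6 j)) : ∃ C : ℕ,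
    (∀ k, cnt (O := O) (fun j => incl 4 6 O (gen 4 6 j)) k ≤ C ^ k) ∧
    ∀ s : ℂ, (C : ℝ) * ‖((Nat.card (IsLocalRing.ResidueField O) : ℕ) : ℂ) ^ (-s)‖ < 1 →
      Summable (term 4 6 O s) ∧
      zeta 4 6 O s = ∑' k : ℕ,
        (cnt (O := O) (fun j => incl 4 6 O (gen 4 6 j)) k : ℂ) *
          (((Nat.card (IsLocalRing.ResidueField O) : ℕ) : ℂ) ^ (-s)) ^ k := by
  have hfg : Module.Finite O (Over 4 6 O) := S.fg
  set q := Nat.card (IsLocalRing.ResidueField O) with hq
  have hq1 : 1 < q := Finite.one_lt_card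
  obtain ⟨C, hC⟩ := sub_bound O (Over 4 6 O)
  -- the sets of ideals
  let T : ℕ → Set (LieIdeal O (Over 4 6 O)) := fun k => {I : LieIdeal O (Over 4 6 O) |
    (I : Submodule O (Over 4 6 O)) =
      (⨆ i : ℕ, ((I : Submodule O (Over 4 6 O)) ⊓
        Submodule.span O {y : Over 4 6 O | ∃ (j : Fin 6) (w : List (Fin 6)), w.length = i ∧
          y = List.foldr (fun (k : Fin 6) (a : Over 4 6 O) => ⁅incl 4 6 O (gen 4 6 k), a⁆)
            (incl 4 6 O (gen 4 6 j)) w})) ∧
    Nat.card (Over 4 6 O ⧸ (I : Submodule O (Over 4 6 O))) = q ^ k}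
  have hcnt : ∀ k, cnt (O := O) (fun j => incl 4 6 O (gen 4 6 j)) k =
      (T k).ncard := fun k => rfl
  have himg : ∀ k, (fun I : LieIdeal O (Over 4 6 O) => (I : Submodule O (Over 4 6 O))) '' (T k) ⊆
      {N : Submodule O (Over 4 6 O) | Nat.card (Over 4 6 O ⧸ N) =
        Nat.card (IsLocalRing.ResidueField O) ^ k} := by
    rintro k _ ⟨I, hI, rfl⟩
    exact hI.2
  have hinj : Function.Injective
      (fun I : LieIdeal O (Over 4 6 O) => (I : Submodule O (Over 4 6 O))) :=
    fun I J h => LieSubmodule.toSubmodule_injective h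
  have hfin : ∀ k, (T k).Finite := fun k =>
    Set.Finite.of_finite_image ((hC k).1.subset (himg k)) hinj.injOn
  have hle : ∀ k, (T k).ncard ≤ C ^ k := by
    intro k
    rw [← Set.ncard_image_of_injective (T k) hinj]
    exact (Set.ncard_le_ncard (himg k) (hC k).1).trans (hC k).2
  refine ⟨C, fun k => by rw [hcnt]; exact hle k, ?_⟩
  -- the degree
  have hdeg : ∀ I : GradedIdeal 4 6 O, ∃ m, Nat.card (Over 4 6 O ⧸
      (I.1 : Submodule O (Over 4 6 O))) = q ^ m := by
    intro I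
    have := I.2.2
    exact card_pow O (Over 4 6 O ⧸ (I.1 : Submodule O (Over 4 6 O)))
  choose deg hdeg using hdeg
  have hequiv : ∀ k, {x : GradedIdeal 4 6 O // deg x = k} ≃ T k := by
    intro k
    refine
      { toFun := fun x => ⟨x.1.1, ?_, ?_⟩
        invFun := fun I => ⟨⟨I.1, ?_, ?_⟩, ?_⟩
        left_inv := fun x => rfl
        right_inv := fun I => rfl }
    · exact x.1.2.1.trans (graded_iff O S hS x.1.1)
    · rw [hdeg, x.2]
    · exact I.2.1.trans (graded_iff O S hS I.1).symm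
    · exact Nat.finite_of_card_ne_zero (by rw [I.2.2]; exact pow_ne_zero _ (by omega))
    · apply Nat.pow_right_injective hq1
      exact (hdeg _).symm.trans I.2.2
  have hfin' : ∀ k, Finite {x : GradedIdeal 4 6 O // deg x = k} := by
    intro k
    have := (hfin k).to_subtype
    exact Finite.of_equiv _ (hequiv k).symm
  have hcard : ∀ k, Nat.card {x : GradedIdeal 4 6 O // deg x = k} =
      cnt (O := O) (fun j => incl 4 6 O (gen 4 6 j)) k := by
    intro k
    rw [hcnt, Nat.card_congr (hequiv k)]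
    rfl
  intro s hs
  have hterm : term 4 6 O s = fun I => (((q : ℕ) : ℂ) ^ (-s)) ^ deg I := by
    funext I
    unfold term
    rw [hdeg, Nat.cast_pow, ← Complex.cpow_nat_mul, Complex.natCast_cpow_natCast_mul]
  have key := fiber_sum deg hfin' _ hcard C (fun k => by rw [hcnt]; exact hle k) _ hs
  unfold zeta
  rw [hterm]
  exact key

/-- `C q ^ (-s)` is small for large `re s` -/
theorem large_re (q : ℕ) (hq : 1 < q) (C : ℕ) :
    ∃ τ : ℝ, ∀ s : ℂ, τ < s.re → (C : ℝ) * ‖((q : ℕ) : ℂ) ^ (-s)‖ < 1 := by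
  have hq1 : (1 : ℝ) < (q : ℝ) := by exact_mod_cast hq
  have hq0 : (0 : ℝ) < (q : ℝ) := by linarith
  have hC : (0 : ℝ) < (C : ℝ) + 1 := by positivity
  refine ⟨Real.logb q (C + 1), fun s hs => ?_⟩
  have h1 := (Real.logb_lt_iff_lt_rpow hq1 hC).mp hs
  rw [Complex.norm_natCast_cpow_of_pos (by omega), Complex.neg_re, Real.rpow_neg hq0.le,
    ← div_eq_mul_inv, div_lt_one (Real.rpow_pos_of_pos hq0 _)]
  linarith

/-- the power series identity -/
theorem formal (O : Type) [CommRing O] [IsDomain O] [IsDiscreteValuationRing O]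
    [Finite (IsLocalRing.ResidueField O)] (S : Sys O (Over 4 6 O))
    (hS : ∀ j, S.e j = incl 4 6 O (gen 4 6 j)) (P Q : Polynomial (Polynomial ℚ))
    (hQ : Q.map (evalRingHom ((Nat.card (IsLocalRing.ResidueField O) : ℕ) : ℚ)) ≠ 0)
    (h : Identity 4 6 O P Q) :
    ((Q.map (evalRingHom ((Nat.card (IsLocalRing.ResidueField O) : ℕ) : ℚ)) : ℚ[X]) :
      PowerSeries ℚ) *
      PowerSeries.mk (fun n => ((cnt (O := O)
        (fun j => incl 4 6 O (gen 4 6 j)) n : ℕ) : ℚ)) =
      ((P.map (evalRingHom ((Nat.card (IsLocalRing.ResidueField O) : ℕ) : ℚ)) : ℚ[X]) :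
      PowerSeries ℚ) := by
  obtain ⟨C, hC1, hC2⟩ := zeta_series O S hS
  obtain ⟨σ, hσ⟩ := h
  have hq1 : 1 < Nat.card (IsLocalRing.ResidueField O) := Finite.one_lt_card
  obtain ⟨τ, hτ⟩ := large_re (Nat.card (IsLocalRing.ResidueField O)) hq1 C
  refine formal_of_identity P Q _ hq1 _ C hC1 hQ (max σ τ) ?_
  intro s hs hQs
  rw [← (hC2 s (hτ s (lt_of_le_of_lt (le_max_right _ _) hs))).2]
  exact hσ s (lt_of_le_of_lt (le_max_left _ _) hs) _ _ rfl rfl hQs

/-- absolute convergence -/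
theorem converges (O : Type) [CommRing O] [IsDomain O] [IsDiscreteValuationRing O]
    [Finite (IsLocalRing.ResidueField O)] (S : Sys O (Over 4 6 O))
    (hS : ∀ j, S.e j = incl 4 6 O (gen 4 6 j)) :
    ∃ σ : ℝ, ∀ s : ℂ, σ < s.re → Summable (term 4 6 O s) := by
  obtain ⟨C, -, hC2⟩ := zeta_series O S hS
  have hq1 : 1 < Nat.card (IsLocalRing.ResidueField O) := Finite.one_lt_card
  obtain ⟨τ, hτ⟩ := large_re (Nat.card (IsLocalRing.ResidueField O)) hq1 C
  exact ⟨τ, fun s hs => (hC2 s (hτ s hs)).1⟩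

/-- For every rational function `W = P / Q` there are `e` and `N` such that, for every prime
`p > N` with `p ≡ 2` modulo `3` and `p ≡ 1` modulo `5 ^ e`, the identity
`ζ(s) = W(q, q ^ (-s))` fails for the ring of integers `O` of some extension of `ℚ_p` of degree at
most `2`, `ζ` being the graded ideal zeta function of `f_{4,6}(O)`, which converges for `s` of large
real part. There are infinitely many such primes. -/
theorem result (P Q : Polynomial (Polynomial ℚ)) (hQ : Q ≠ 0) :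
    ∃ e N : ℕ,
      {p : ℕ | p.Prime ∧ N < p ∧ p ≡ 2 [MOD 3] ∧ p ≡ 1 [MOD 5 ^ e]}.Infinite ∧
      ∀ (p : ℕ) [Fact p.Prime], N < p → p ≡ 2 [MOD 3] → p ≡ 1 [MOD 5 ^ e] →
        ∃ E : PadicExtension p, Module.finrank ℚ_[p] E.K ≤ 2 ∧
          (∃ σ : ℝ, ∀ s : ℂ, σ < s.re → Summable (term 4 6 E.O s)) ∧
          ¬ Identity 4 6 E.O P Q := by
  obtain ⟨e, N, hN⟩ := arith_all P Q hQ 26
  refine ⟨e + 1, N, ?_, ?_⟩
  · rw [Set.infinite_iff_exists_gt]
    intro M
    obtain ⟨p, hp1, hp2, hp3, hp4, -⟩ := exists_prime_class e (max M N)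
    exact ⟨p, ⟨hp2, lt_of_le_of_lt (le_max_right _ _) hp1, hp4, hp3⟩,
      lt_of_le_of_lt (le_max_left _ _) hp1⟩
  intro p hpf hp hp3 hp5
  have hprime : p.Prime := hpf.out
  have hp3' : p % 3 = 2 := hp3
  have hp5' : p % 5 = 1 := by
    have : p ≡ 1 [MOD 5] := hp5.of_dvd (dvd_pow_self 5 (by omega))
    exact this
  obtain ⟨hQ1, hQ2, hab⟩ := hN p hp hp5
  -- the two rings
  obtain ⟨O', i1, i2, i3, i4, i5, ω, K, k1, k2, k3, k4, htow, hfin, hrank, hint, hω, hb, hi, hirr,
    hcard'⟩ := exists_quadratic_field p hp3'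
  have hcard : Nat.card (IsLocalRing.ResidueField ℤ_[p]) = p := by
    rw [Nat.card_congr (PadicInt.residueField (p := p)).toEquiv, Nat.card_zmod]
  have f1 : Finite (IsLocalRing.ResidueField ℤ_[p]) :=
    Nat.finite_of_card_ne_zero (by rw [hcard]; exact hprime.ne_zero)
  have f2 : Finite (IsLocalRing.ResidueField O') :=
    Nat.finite_of_card_ne_zero (by rw [hcard']; exact pow_ne_zero _ hprime.ne_zero)
  obtain ⟨π, hπs, hπk, hπe⟩ := pres ℤ_[p]
  obtain ⟨π', hπs', hπk', hπe'⟩ := pres O'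
  obtain ⟨ζ, hζ, hu⟩ := exists_zeta p hp5'
  have hζ' : (algebraMap ℤ_[p] O' ζ) ^ 5 = 1 := by rw [← map_pow, hζ, map_one]
  have hu' : ∀ k : ℕ, ¬ 5 ∣ k → IsUnit ((algebraMap ℤ_[p] O' ζ) ^ k - 1) := by
    intro k hk
    have := (hu k hk).map (algebraMap ℤ_[p] O')
    rwa [map_sub, map_pow, map_one] at this
  obtain ⟨S, -, hSe⟩ := exists_sys π hπs hπk ζ hζ hu
  obtain ⟨S', -, hSe'⟩ := exists_sys π' hπs' hπk' _ hζ' hu'
  have hS : ∀ j, S.e j = incl 4 6 ℤ_[p] (gen 4 6 j) := fun j => (hSe j).trans (hπe j)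
  have hS' : ∀ j, S'.e j = incl 4 6 O' (gen 4 6 j) := fun j => (hSe' j).trans (hπe' j)
  have hdiff := differ p hp3' hp5' O' ω hω hb hi hirr hcard' π hπs hπk π' hπs' hπk'
  by_cases hid : Identity 4 6 ℤ_[p] P Q
  · refine ⟨⟨K, O'⟩, hrank.le, converges O' S' hS', ?_⟩
    intro hid'
    apply hdiff
    have h1 := formal ℤ_[p] S hS P Q (by rw [hcard]; exact hQ1) hid
    have h2 := formal O' S' hS' P Q (by rw [hcard']; exact hQ2) hid'
    rw [hcard] at h1
    rw [hcard'] at h2
    have h3 := hab _ _ h1 h2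
    simp only [hπe, hπe']
    exact h3
  · refine ⟨⟨ℚ_[p], ℤ_[p]⟩, ?_, converges ℤ_[p] S hS, hid⟩
    show Module.finrank ℚ_[p] ℚ_[p] ≤ 2
    rw [Module.finrank_self]
    omega

end Pool.Agent.Results.MP_424f45_al.NotUniform
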